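import Pool.Agent.Q26.PD.Corr

/-!
# Autocorrelations of the Möbius function with palindromic shifts

Definitions used (all in `Pool.Agent.TH872.Tr`): `num b k E`: the number of the palindromes with exactly `k` digits in
base `b` which have the property `E`; `value b k κ c d z`: the integer `c + κ v`, where `v` has the pair of digits
`d i` at the positions `i` and `k - 1 - i`, for `i < k / 2`, and, if `k` is odd, the middle digit `z`;
`Prob b k w u E`: the probability of the event `E` if the pairs `d i` and `z` are chosen independently of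
each other with the distributions `w i` and `u`; `Pairs b k η w`: the `w i` are distributions of pairs of
digits, and two independent copies of the pair number `i` (`i ≥ 1`) differ in both digits with a
probability of at least `η`.
-/

set_option autoImplicit false

namespace Pool.Agent.Results.MP_c59857_nt.PalindromicShifts

open Finset Pool.Agent.TH872.Tr

/-- The Möbius function on the integers, `0` at the integers `m ≤ 0`, with complex values. -/
noncomputable def mu (m : ℤ) : ℂ := ((ArithmeticFunction.moebius m.toNat : ℤ) : ℂ)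

/-- `|∑ n ≤ N, g l n * μ (n + α)| ≤ δ` for all the functions `g l` and all `N ≤ M`. -/
def Small (M : ℕ) (δ : ℝ) {L : ℕ} (g : Fin L → ℕ → ℂ) (α : ℤ) : Prop :=
  ∀ l, ∀ N : ℕ, N ≤ M → ‖∑ n ∈ Icc 1 N, g l n * mu (n + α)‖ ≤ δ

/-- Let `b ≥ 2`, `B`, `T`, `U`, `κ ≠ 0` and `η > 0` be fixed and let `k` be large. Let `c` be an arbitrary integer
with `|c| ≤ B b ^ k`, and let `g l : ℕ → ℂ`, where `l` ranges over at most `k ^ T` indices, be arbitrary functions
bounded by `1` (for example products `∏ i, μ (n + α i) ^ ε i` with arbitrary shifts `α i` and exponents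
`ε i ∈ {1, 2}`).

(1) All the palindromes `v` with `k` digits in base `b`, up to a proportion of at most `1 / k ^ U` of them, have
the following property: the shift `α = c + κ v` satisfies `|∑ n ≤ N, g l n * μ (n + α)| ≤ b ^ k / k ^ U` for all `l`
and all `N ≤ B b ^ k`.

(2) More generally, let `v` be a random integer with `k` digits in base `b`, such that the pairs formed by the
digits at the positions `i` and `k - 1 - i` are independent of each other for different `i`. Inside of a pair the
digits may depend on each other in an arbitrary way; the distributions of the pairs are arbitrary (and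
depend on the position and on `k`), only two independent copies of a pair (with `i ≥ 1`) should differ in
both digits with a probability of at least `η`. Then `α = c + κ v` has the property of (1) with a probability of at
least `1 - 1 / k ^ U`. -/
theorem result (b B T U : ℕ) (hb : 2 ≤ b) (κ : ℤ) (hκ : κ ≠ 0) (η : ℝ) (hη : 0 < η) :
    ∃ k₀ : ℕ, ∀ k : ℕ, k₀ ≤ k → ∀ c : ℤ, |c| ≤ B * (b : ℤ) ^ k →
      ∀ L : ℕ, L ≤ k ^ T → ∀ g : Fin L → ℕ → ℂ, (∀ l n, ‖g l n‖ ≤ 1) →
      (num b k (fun v => ¬ Small (B * b ^ k) ((b : ℝ) ^ k / (k : ℝ) ^ U) g (c + κ * v)) : ℝ) ≤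
        num b k (fun _ => True) / (k : ℝ) ^ U ∧
      ∀ (w : ℕ → ℕ × ℕ → ℝ) (u : ℕ → ℝ), Pairs b k η w → (∀ a, 0 ≤ u a) → ∑ a ∈ range b, u a = 1 →
        Prob b k w u (fun d z => ¬ Small (B * b ^ k) ((b : ℝ) ^ k / (k : ℝ) ^ U) g (value b k κ c d z)) ≤
          1 / (k : ℝ) ^ U := by
  classical
  obtain ⟨k₀, h0⟩ := Pool.Agent.Q26.PD.mir_corr b B T U hb κ hκ Pool.Agent.H373R2.T7.muC Pool.Agent.W93.LM.nice_muC η hη
  refine ⟨k₀ + 1, fun k hk c hc L hL g hg => ?_⟩
  have hk1 : (1 : ℝ) ≤ (k : ℝ) ^ T := one_le_pow₀ (by exact_mod_cast (by omega : 1 ≤ k))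
  have h1 := h0 k (by omega) c hc (fun Y => ¬ Small (B * b ^ k) ((b : ℝ) ^ k / (k : ℝ) ^ U) g Y)
    ⟨L, by exact_mod_cast hL, fun _ => 1, fun l => if h : l < L then g ⟨l, h⟩ else fun _ => 0, fun _ _ => le_rfl, by
      intro l hl n _ _
      simp only [hl, dif_pos]
      exact (hg _ n).trans hk1, by
      intro Y hY
      unfold Small at hY
      push Not at hY
      obtain ⟨l, N, hN, h2⟩ := hY
      refine ⟨l, l.2, N, by rw [one_mul]; exact hN, ?_⟩
      have e0 : ((b ^ k : ℕ) : ℝ) = (b : ℝ) ^ k := by push_cast; rfl
      rw [e0]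
      refine lt_of_lt_of_eq h2 ?_
      simp only [l.2, dif_pos]
      congr 1
      apply sum_congr rfl
      intro n _
      congr 1
      rw [one_mul]
      unfold Pool.Agent.H373R2.T7.exI mu
      split_ifs with h3
      · rfl
      · rw [Int.toNat_of_nonpos (by omega)]
        simp⟩
  exact ⟨h1.2, h1.1⟩

end Pool.Agent.Results.MP_c59857_nt.PalindromicShifts
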