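import Pool.Agent.Q25.TFam3
import Pool.Agent.W93.LM5

/-!
# Chowla's conjecture on the Möbius function for almost all shifts from thin families, at all scales

The exponential sum bounds for the Möbius function (Davenport's theorem) and the bilinear estimate along families
of small additive energy are from the starting files (`Pool.Agent.H807R2.Dav`, `Pool.Agent.H373R2.T7`,
`Pool.Agent.TH935.LF1`).
-/

set_option autoImplicit false

namespace Pool.Agent.Results.MP_c59857_nt.PolynomialShifts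

open Finset Polynomial

/-- The Möbius function on the integers, `0` at the integers `m ≤ 0`. -/
def mu (m : ℤ) : ℤ := if 1 ≤ m then ArithmeticFunction.moebius m.toNat else 0

/-- The additive energy of order `p` of the family `s 1, ..., s x`: the number of the solutions of
`s (m 1) + ... + s (m p) = s (m' 1) + ... + s (m' p)` with all `m i`, `m' i` in `{1, ..., x}`. -/
def energy (p x : ℕ) (s : ℕ → ℤ) : ℕ :=
  (((Fintype.piFinset fun _ : Fin p => Icc 1 x) ×ˢ (Fintype.piFinset fun _ : Fin p => Icc 1 x)).filter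
    (fun q => ∑ i, s (q.1 i) = ∑ i, s (q.2 i))).card

/-- The family `s 1, ..., s x` is contained in `[-B N, B N]` and has nearly minimal energy of order `p`: at most
`log ^ C N * x ^ (2 p) / N`. -/
def Thin (p B C N x : ℕ) (s : ℕ → ℤ) : Prop :=
  (∀ m ∈ Icc 1 x, |s m| ≤ B * N) ∧ (energy p x s : ℝ) * N ≤ Real.log N ^ C * (x : ℝ) ^ (2 * p)

/-- The range `N / log ^ C N ≤ x ^ d ≤ B N`, `|c| ≤ B N` for the values of a polynomial of degree `d`. -/
def Range (B C N d x : ℕ) (c : ℤ) : Prop :=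
  |c| ≤ B * N ∧ (N : ℝ) ≤ Real.log N ^ C * (x : ℝ) ^ d ∧ x ^ d ≤ B * N

open Classical in
/-- For each of at most `log ^ T N` indices `l` let `a l ≥ 1` and let `g l : ℕ → ℂ` be an arbitrary function
bounded by `log ^ T N`, for example a product `∏ i, μ (n + α i) ^ ε i` with arbitrary `α i`. Then all the shifts
`α = s 1, ..., s x` with at most `x / log ^ U N` exceptions satisfy
`|∑ n ≤ X, g l n * μ (a l * n + α)| ≤ N / log ^ U N` for all `l` and all `X ≤ B N / a l`. -/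
def AlmostAll (B T U N x : ℕ) (s : ℕ → ℤ) : Prop :=
  ∀ L : ℕ, (L : ℝ) ≤ Real.log N ^ T → ∀ (a : Fin L → ℕ) (g : Fin L → ℕ → ℂ),
    (∀ l, 1 ≤ a l) → (∀ l n, ‖g l n‖ ≤ Real.log N ^ T) →
      (((Icc 1 x).filter (fun m => ¬ ∀ l, ∀ X : ℕ, a l * X ≤ B * N →
        ‖∑ n ∈ Icc 1 X, g l n * (mu (a l * n + s m) : ℂ)‖ ≤ N / Real.log N ^ U)).card : ℝ) ≤ x / Real.log N ^ U

open Classical in
/-- All the tuples `m` with `1 ≤ m i ≤ x i`, with at most `(∏ i, x i) / log ^ U N` exceptions, satisfy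
`|∑ n ≤ X, ∏ i, μ (n + s i (m i)) ^ ε i| ≤ N / log ^ U N` for all `X ≤ B N` and for all the exponents `ε i` in
`{1, 2}`, not all of them equal to `2`. -/
def AlmostAllTuples (k B U N : ℕ) (x : Fin (k + 1) → ℕ) (s : Fin (k + 1) → ℕ → ℤ) : Prop :=
  (((Fintype.piFinset fun i => Icc 1 (x i)).filter (fun m : Fin (k + 1) → ℕ =>
    ¬ ∀ ε : Fin (k + 1) → ℕ, (∀ i, ε i = 1 ∨ ε i = 2) → (∃ i, ε i = 1) → ∀ X : ℕ, X ≤ B * N →
      |((∑ n ∈ Icc 1 X, ∏ i, mu (n + s i (m i)) ^ ε i : ℤ) : ℝ)| ≤ N / Real.log N ^ U)).card : ℝ) ≤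
        (∏ i, (x i : ℝ)) / Real.log N ^ U

lemma mu_eq (m : ℤ) : (mu m : ℂ) = Pool.Agent.H373R2.T7.exI Pool.Agent.H373R2.T7.muC m := by
  unfold mu Pool.Agent.H373R2.T7.exI Pool.Agent.H373R2.T7.muC
  split_ifs <;> simp

lemma mu_norm (m : ℤ) : ‖(mu m : ℂ)‖ ≤ 1 := by
  rw [mu_eq]
  exact Pool.Agent.W93.LM.exI_norm _ Pool.Agent.W93.LM.nice_muC.1 m

/-- Let `k`, `B`, `C`, `T` and `U` be fixed. For all large `N`:

* Almost all the shifts of a family of nearly minimal energy of any fixed order `p` have the property `AlmostAll`.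
* So do almost all the shifts `c + P m`, `m ≤ x`, for a non-constant polynomial `P` of degree `d`, where
  `N / log ^ C N ≤ x ^ d ≤ B N` and `|c| ≤ B N`.
* The sums of Chowla's conjecture with `r = k + 1`: almost all the tuples of shifts from `k + 1` families of nearly
  minimal energy of any fixed order `p`, and almost all the tuples of shifts `c i + P i (m i)`, `m i ≤ x i`, with
  arbitrary non-constant polynomials `P i`, have the property `AlmostAllTuples`. -/
theorem result (k B C T U : ℕ) :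
    (∀ p : ℕ, ∃ N₀ : ℕ, ∀ N : ℕ, N₀ ≤ N → ∀ (x : ℕ) (s : ℕ → ℤ), Thin p B C N x s → AlmostAll B T U N x s) ∧
    (∀ P : ℤ[X], 1 ≤ P.natDegree → ∃ N₀ : ℕ, ∀ N : ℕ, N₀ ≤ N → ∀ (c : ℤ) (x : ℕ), Range B C N P.natDegree x c →
      AlmostAll B T U N x (fun m => c + P.eval (m : ℤ))) ∧
    (∀ p : ℕ, ∃ N₀ : ℕ, ∀ N : ℕ, N₀ ≤ N → ∀ (x : Fin (k + 1) → ℕ) (s : Fin (k + 1) → ℕ → ℤ),
      (∀ i, Thin p B C N (x i) (s i)) → AlmostAllTuples k B U N x s) ∧
    (∀ P : Fin (k + 1) → ℤ[X], (∀ i, 1 ≤ (P i).natDegree) → ∃ N₀ : ℕ, ∀ N : ℕ, N₀ ≤ N →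
      ∀ (c : Fin (k + 1) → ℤ) (x : Fin (k + 1) → ℕ), (∀ i, Range B C N (P i).natDegree (x i) (c i)) →
        AlmostAllTuples k B U N x (fun i m => c i + (P i).eval (m : ℤ))) := by
  classical
  have hf := Pool.Agent.W93.LM.nice_muC.1
  have hs := Pool.Agent.W93.LM.nice_muC.2.1
  have key : ∀ N x : ℕ, ∀ s : ℕ → ℤ,
      Pool.Agent.Q25.TFam.AllSmall Pool.Agent.H373R2.T7.muC B T U N x s → AlmostAll B T U N x s := by
    intro N x s hs L hL a g ha hg
    refine hs L hL a g ha (fun l n _ _ => hg l n) _ (filter_subset _ _) ?_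
    intro m hm
    rw [mem_filter] at hm
    obtain ⟨_, hm2⟩ := hm
    push Not at hm2
    obtain ⟨l, X, hX, hb⟩ := hm2
    refine ⟨l, X, hX, lt_of_lt_of_le hb (le_of_eq ?_)⟩
    congr 1
    apply sum_congr rfl
    intro n _
    rw [mu_eq]
    push_cast
    rfl
  obtain ⟨n3, h3⟩ := Pool.Agent.H373R2.T7.ev_L' (2 ^ (k + 1))
  have key2 : ∀ N : ℕ, n3 + 3 ≤ N → ∀ (x : Fin (k + 1) → ℕ) (s : Fin (k + 1) → ℕ → ℤ),
      (∀ i, Pool.Agent.Q25.TFam.AllSmall Pool.Agent.H373R2.T7.muC B 0 (U + 1) N (x i) (s i)) →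
        AlmostAllTuples k B U N x s := by
    intro N hN x s hall
    have hN3 : 3 ≤ N := by omega
    have hL := h3 N (by omega)
    have hNr : (3 : ℝ) ≤ N := by exact_mod_cast hN3
    have hL1 : 1 ≤ Real.log (N : ℝ) := by
      rw [Real.le_log_iff_exp_le (by linarith)]
      exact Real.exp_one_lt_d9.le.trans (by linarith)
    have hL0 : 0 < Real.log (N : ℝ) := by linarith
    unfold AlmostAllTuples
    set W : (Fin (k + 1) → Bool) → (Fin (k + 1) → ℕ) → Prop := fun e m => ∃ X : ℕ, X ≤ B * N ∧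
      N / Real.log N ^ (U + 1) < ‖∑ n ∈ Icc 1 X, ∏ i, (if e i = true then
        Pool.Agent.H373R2.T7.exI Pool.Agent.H373R2.T7.muC (((1 * n : ℕ) : ℤ) + s i (m i)) else
          (mu (((1 * n : ℕ) : ℤ) + s i (m i)) : ℂ) ^ 2)‖ with hW
    have h1 : ∀ e ∈ (univ : Finset (Fin (k + 1) → Bool)).filter (fun e => ∃ i, e i = true),
        (((Fintype.piFinset fun i => Icc 1 (x i)).filter (W e)).card : ℝ) ≤ (∏ i, (x i : ℝ)) / Real.log N ^ (U + 1) := by
      intro e he
      rw [mem_filter] at he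
      obtain ⟨i₀, hi₀⟩ := he.2
      refine Pool.Agent.Q25.TFam.tuples_small (g := fun m => (mu m : ℂ) ^ 2) hf (fun m => ?_) hN3 x s hall
        (fun _ => 1) (fun _ => le_rfl) e i₀ hi₀ (W e) ?_
      · rw [norm_pow]
        exact pow_le_one₀ (norm_nonneg _) (mu_norm m)
      · rintro m ⟨X, hX, hb⟩
        exact ⟨X, fun _ => by rw [one_mul]; exact hX, hb⟩
    have h2 : (Fintype.piFinset fun i => Icc 1 (x i)).filter (fun m : Fin (k + 1) → ℕ =>
        ¬ ∀ ε : Fin (k + 1) → ℕ, (∀ i, ε i = 1 ∨ ε i = 2) → (∃ i, ε i = 1) → ∀ X : ℕ, X ≤ B * N →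
          |((∑ n ∈ Icc 1 X, ∏ i, mu (n + s i (m i)) ^ ε i : ℤ) : ℝ)| ≤ N / Real.log N ^ U) ⊆
        ((univ : Finset (Fin (k + 1) → Bool)).filter (fun e => ∃ i, e i = true)).biUnion
          (fun e => (Fintype.piFinset fun i => Icc 1 (x i)).filter (W e)) := by
      intro m hm
      rw [mem_filter] at hm
      obtain ⟨hm1, hm2⟩ := hm
      push Not at hm2
      obtain ⟨ε, hε1, ⟨i₀, hi₀⟩, X, hX, hb⟩ := hm2
      rw [mem_biUnion]
      refine ⟨fun i => decide (ε i = 1), ?_, ?_⟩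
      · rw [mem_filter]
        exact ⟨mem_univ _, i₀, by simp [hi₀]⟩
      rw [mem_filter]
      refine ⟨hm1, X, hX, ?_⟩
      have e1 : ‖∑ n ∈ Icc 1 X, ∏ i, (if decide (ε i = 1) = true then
          Pool.Agent.H373R2.T7.exI Pool.Agent.H373R2.T7.muC (((1 * n : ℕ) : ℤ) + s i (m i)) else
            (mu (((1 * n : ℕ) : ℤ) + s i (m i)) : ℂ) ^ 2)‖ = |((∑ n ∈ Icc 1 X, ∏ i, mu (n + s i (m i)) ^ ε i : ℤ) : ℝ)| := by
        rw [← Real.norm_eq_abs, ← Complex.norm_real]
        congr 1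
        push_cast
        apply sum_congr rfl
        intro n _
        apply prod_congr rfl
        intro i _
        rw [one_mul]
        rcases hε1 i with h | h
        · rw [h, if_pos (by simp), pow_one, mu_eq]
        · rw [h, if_neg (by simp)]
      rw [e1]
      refine lt_of_le_of_lt ?_ hb
      apply div_le_div_of_nonneg_left (by positivity) (by positivity)
      exact pow_le_pow_right₀ hL1 (by omega)
    have h4 : ((((Fintype.piFinset fun i => Icc 1 (x i)).filter (fun m : Fin (k + 1) → ℕ =>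
        ¬ ∀ ε : Fin (k + 1) → ℕ, (∀ i, ε i = 1 ∨ ε i = 2) → (∃ i, ε i = 1) → ∀ X : ℕ, X ≤ B * N →
          |((∑ n ∈ Icc 1 X, ∏ i, mu (n + s i (m i)) ^ ε i : ℤ) : ℝ)| ≤ N / Real.log N ^ U)).card : ℕ) : ℝ) ≤
        ∑ e ∈ (univ : Finset (Fin (k + 1) → Bool)).filter (fun e => ∃ i, e i = true),
          (((Fintype.piFinset fun i => Icc 1 (x i)).filter (W e)).card : ℝ) := by
      rw [← Nat.cast_sum]
      exact Nat.cast_le.2 ((card_le_card h2).trans card_biUnion_le)
    refine h4.trans ((sum_le_sum h1).trans ?_)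
    rw [sum_const, nsmul_eq_mul]
    have h5 : ((((univ : Finset (Fin (k + 1) → Bool)).filter (fun e => ∃ i, e i = true)).card : ℕ) : ℝ) ≤ 2 ^ (k + 1) := by
      have : ((univ : Finset (Fin (k + 1) → Bool)).filter (fun e => ∃ i, e i = true)).card ≤ 2 ^ (k + 1) := by
        refine (card_filter_le _ _).trans ?_
        rw [card_univ, Fintype.card_fun, Fintype.card_bool, Fintype.card_fin]
      exact_mod_cast this
    have h6 : 0 ≤ (∏ i, (x i : ℝ)) / Real.log N ^ (U + 1) := div_nonneg (prod_nonneg fun _ _ => Nat.cast_nonneg _) (by positivity)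
    refine (mul_le_mul_of_nonneg_right (h5.trans hL) h6).trans (le_of_eq ?_)
    rw [pow_succ]
    field_simp
  refine ⟨?_, ?_, ?_, ?_⟩
  · intro p
    obtain ⟨n1, h1⟩ := Pool.Agent.Q25.TFam.fam_small hf hs p B C T U
    exact ⟨n1, fun N hN x s h => key N x s (h1 N hN x s h.1 h.2)⟩
  · intro P hP
    obtain ⟨n1, h1⟩ := Pool.Agent.Q25.TFam.poly_small hf hs P hP B C T U
    exact ⟨n1, fun N hN c x h => key N x _ (h1 N hN c h.1 x h.2.1 h.2.2)⟩
  · intro p
    obtain ⟨n1, h1⟩ := Pool.Agent.Q25.TFam.fam_small hf hs p B C 0 (U + 1)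
    exact ⟨n1 + n3 + 3, fun N hN x s h => key2 N (by omega) x s (fun i => h1 N (by omega) (x i) (s i) (h i).1 (h i).2)⟩
  · intro P hP
    choose n1 h1 using fun i => Pool.Agent.Q25.TFam.poly_small hf hs (P i) (hP i) B C 0 (U + 1)
    refine ⟨∑ i, n1 i + n3 + 3, fun N hN c x h => key2 N (by omega) x _ (fun i => ?_)⟩
    refine h1 i N ?_ (c i) (h i).1 (x i) (h i).2.1 (h i).2.2
    have : n1 i ≤ ∑ i, n1 i := single_le_sum (f := n1) (fun _ _ => Nat.zero_le _) (mem_univ i)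
    omega

end Pool.Agent.Results.MP_c59857_nt.PolynomialShifts
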