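import Pool.Agent.Q25.NDig

set_option autoImplicit false

/-!
# Chowla's conjecture on the Möbius function at integers with independent random digits, for almost all shifts

The digits of `m < b ^ k` in base `b` are independent random variables with arbitrary distributions, no digit having a
probability larger than `1 - η` (for instance, `m` may be a random integer with restricted digits). For almost all
vectors `α` of shifts of the order of `b ^ k` all the expectations of Chowla's products are at most `k ^ (-U)`, also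
after multiplication with arbitrary bounded functions of `m`.

From the starting files: `Pool.Agent.TH872.Sq` (the second moments over the constant terms of sums over integers with
random digits), `Pool.Agent.W93.LM` (the Möbius function in major arcs), `Pool.Agent.H807R2.Dav` (Davenport).
-/

namespace Pool.Agent.Results.MP_c59857_nt.RandomDigitArguments

open Finset

/-- `w i d` is the probability that the digit number `i` is equal to `d`; no digit has a probability larger than
`1 - η` -/
structure Digits (b : ℕ) (η : ℝ) (w : ℕ → ℕ → ℝ) : Prop where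
  nonneg : ∀ i d, 0 ≤ w i d
  sum : ∀ i, ∑ d ∈ range b, w i d = 1
  le : ∀ i d, w i d ≤ 1 - η

/-- the probability of the integer `m < b ^ k`, the product of the probabilities of its digits -/
noncomputable def weight (b : ℕ) (w : ℕ → ℕ → ℝ) (k m : ℕ) : ℝ := ∏ i ∈ range k, w i (m / b ^ i % b)

/-- The Möbius function on the integers, `0` at the integers `m ≤ 0`. -/
def mu (m : ℤ) : ℤ := if 1 ≤ m then ArithmeticFunction.moebius m.toNat else 0

/-- the expectation of `G(m) ∏_j μ(m + α_j) ^ ε_j` -/
noncomputable def corr (b : ℕ) (w : ℕ → ℕ → ℝ) (k : ℕ) {r : ℕ} (α : Fin r → ℤ) (ε : Fin r → ℕ) (G : ℕ → ℝ) : ℝ :=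
  ∑ m ∈ range (b ^ k), weight b w k m * (G m * ∏ j, (mu (m + α j) : ℝ) ^ ε j)

/-- all the expectations of `G(m) ∏_j μ(m + α_j) ^ ε_j` with exponents `ε_j` in `{1, 2}`, not all of them equal to `2`,
are at most `k ^ (-U)` -/
def Good (b : ℕ) (w : ℕ → ℕ → ℝ) (k U : ℕ) {r : ℕ} (α : Fin r → ℤ) (G : ℕ → ℝ) : Prop :=
  ∀ ε : Fin r → ℕ, (∀ j, ε j = 1 ∨ ε j = 2) → (∃ j, ε j = 1) → |corr b w k α ε G| ≤ 1 / (k : ℝ) ^ U

lemma mu_abs (m : ℤ) : |(mu m : ℝ)| ≤ 1 := by
  have h : |mu m| ≤ 1 := by
    unfold mu
    split_ifs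
    · exact ArithmeticFunction.abs_moebius_le_one
    · simp
  exact_mod_cast h

open Classical in
/-- **Chowla's conjecture on the Möbius function for integers with independent random digits and almost all shifts.** Let
`b ≥ 2`, `η > 0`, `r`, `F`, `U` and `K` be fixed and let `k` be large. Let the digits of `m < b ^ k` be independent, with
arbitrary distributions giving to no digit a probability larger than `1 - η`, let `b ^ k ≤ X_j ≤ F b ^ k` and
`σ_j ∈ {1, -1}`, and let `G_l`, `l < L ≤ k ^ K`, be arbitrary functions bounded by `1` (for example products of values of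
`μ` and `μ ^ 2` at `m` and at any other forms, or the indicator functions of initial segments). For all the vectors
`α = (σ_1 c_1, ..., σ_r c_r)` with `1 ≤ c_j ≤ X_j`, with at most `(∏ X_j) / k ^ U` exceptions,
`|E G_l(m) ∏_j μ(m + α_j) ^ ε_j| ≤ k ^ (-U)` for all `l` and for all the exponents `ε_j` in `{1, 2}`, not all of them
equal to `2`. -/
theorem result (b : ℕ) (hb : 2 ≤ b) (η : ℝ) (hη : 0 < η) (r : ℕ) (F U K : ℕ) :
    ∃ K₀ : ℕ, ∀ k : ℕ, K₀ ≤ k → ∀ w : ℕ → ℕ → ℝ, Digits b η w →
    ∀ X : Fin r → ℕ, (∀ j, b ^ k ≤ X j ∧ X j ≤ F * b ^ k) → ∀ σ : Fin r → ℤ, (∀ j, σ j = 1 ∨ σ j = -1) →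
    ∀ L : ℕ, L ≤ k ^ K → ∀ G : Fin L → ℕ → ℝ, (∀ l n, |G l n| ≤ 1) →
    (((Fintype.piFinset (fun j : Fin r => Icc 1 (X j))).filter
      (fun c => ¬ ∀ l, Good b w k U (fun j => σ j * (c j : ℤ)) (G l))).card : ℝ) ≤ (∏ j, (X j : ℝ)) / (k : ℝ) ^ U := by
  set muR : ℕ → ℝ := fun n => ((ArithmeticFunction.moebius n : ℤ) : ℝ) with hmuR
  have hnice : Pool.Agent.W93.LM.Nice (fun n => ((muR n : ℝ) : ℂ)) := by
    have h1 : (fun n => ((muR n : ℝ) : ℂ)) = Pool.Agent.H373R2.T7.muC := by
      funext n
      rw [hmuR]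
      unfold Pool.Agent.H373R2.T7.muC
      push_cast
      rfl
    rw [h1]
    exact Pool.Agent.W93.LM.nice_muC
  choose! n0 hn0 using fun (I : Finset (Fin r)) (hI : I.Nonempty) =>
    Pool.Agent.Q25.NDig.gen b hb η hη r (fun _ => 0) (fun _ => 1) (fun j => by
      unfold Pool.Agent.TH872.Sq.ld
      rw [if_pos rfl]
      norm_num) I I hI (Subset.refl I)
      (fun j n => if j ∈ I then muR n else Pool.Agent.TH872.Sq.th n)
      (fun j hj => by simp only [if_pos hj]; exact hnice) (fun j hj n => by
        simp only [if_neg hj]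
        exact ⟨le_rfl, Pool.Agent.TH872.Sq.th_le n⟩) F (U + 1) K
  refine ⟨∑ I : Finset (Fin r), n0 I + 2 ^ r + 1, fun k hk w hw X hX σ hσ L hL G hG => ?_⟩
  have hks : ∑ I : Finset (Fin r), n0 I ≤ k ∧ 2 ^ r ≤ k ∧ 1 ≤ k := by
    generalize 2 ^ r = M at hk
    omega
  have hk1 : (1 : ℝ) ≤ k := by exact_mod_cast hks.2.2
  have hk0 : (0 : ℝ) < k := by linarith
  have hk2 : (2 : ℝ) ^ r ≤ k := by exact_mod_cast hks.2.1
  set ex : Finset (Fin r) → Fin r → ℕ := fun I j => if j ∈ I then 1 else 2 with hex
  -- the bad vectors for a set of indices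
  set Bad : Finset (Fin r) → Finset (Fin r → ℕ) := fun I => (Fintype.piFinset (fun j : Fin r => Icc 1 (X j))).filter
    (fun c => ∃ l, 1 / (k : ℝ) ^ U < |corr b w k (fun j => σ j * (c j : ℤ)) (ex I) (G l)|) with hBad
  have hcard : ∀ I ∈ (univ : Finset (Finset (Fin r))).filter (fun I => I.Nonempty),
      ((Bad I).card : ℝ) ≤ (∏ j, (X j : ℝ)) / (k : ℝ) ^ (U + 1) := by
    intro I hI
    have hI' := (mem_filter.1 hI).2
    refine hn0 I hI' k ?_ w ⟨hw.nonneg, hw.sum, hw.le⟩ σ hσ X (fun j => by
      rw [Pool.Agent.TH872.Sq.dg_zero, one_mul]; exact hX j) L hL G hG (fun _ m => (mu m : ℝ) ^ 2) (fun _ m => by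
        rw [abs_pow]
        exact pow_le_one₀ (abs_nonneg _) (mu_abs m)) _ ?_
    · exact (single_le_sum (f := n0) (fun _ _ => Nat.zero_le _) (mem_univ I)).trans hks.1
    · rintro c hc ⟨l, hl⟩
      refine ⟨l, lt_of_le_of_lt ?_ (lt_of_lt_of_le hl (le_of_eq ?_))⟩
      · apply div_le_div_of_nonneg_left zero_le_one (by positivity)
        exact pow_le_pow_right₀ hk1 (by omega)
      · congr 1
        unfold corr Pool.Agent.Q25.NDig.Sm weight Pool.Agent.TH872.Sq.P
        apply sum_congr rfl
        intro m _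
        simp only [zero_add]
        congr 2
        apply prod_congr rfl
        intro j _
        have e3 : Pool.Agent.TH872.Sq.qv 0 1 m + σ j * (c j : ℤ) = (m : ℤ) + σ j * (c j : ℤ) := by
          unfold Pool.Agent.TH872.Sq.qv; ring
        rw [e3, hex]
        simp only
        by_cases hj : j ∈ I
        · rw [if_pos hj, if_pos hj, pow_one]
          simp only [if_pos hj]
          unfold Pool.Agent.TH872.Sq.fx mu
          split_ifs <;> simp [hmuR]
        · rw [if_neg hj, if_neg hj]
  have hsub : (Fintype.piFinset (fun j : Fin r => Icc 1 (X j))).filter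
      (fun c => ¬ ∀ l, Good b w k U (fun j => σ j * (c j : ℤ)) (G l)) ⊆
      ((univ : Finset (Finset (Fin r))).filter (fun I => I.Nonempty)).biUnion Bad := by
    intro c hc
    rw [mem_filter] at hc
    by_contra hcon
    apply hc.2
    intro l ε hε1 hε2
    by_contra hb'
    push Not at hb'
    apply hcon
    rw [mem_biUnion]
    refine ⟨univ.filter (fun j => ε j = 1), mem_filter.2 ⟨mem_univ _, ?_⟩, mem_filter.2 ⟨hc.1, l, ?_⟩⟩
    · obtain ⟨j, hj⟩ := hε2
      exact ⟨j, mem_filter.2 ⟨mem_univ _, hj⟩⟩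
    · have e1 : ex (univ.filter (fun j => ε j = 1)) = ε := by
        funext j
        rw [hex]
        simp only [mem_filter, mem_univ, true_and]
        rcases hε1 j with h | h
        · rw [if_pos h, h]
        · rw [if_neg (by rw [h]; norm_num), h]
      rw [e1]
      exact hb'
  have hfin : (((Fintype.piFinset (fun j : Fin r => Icc 1 (X j))).filter
      (fun c => ¬ ∀ l, Good b w k U (fun j => σ j * (c j : ℤ)) (G l))).card : ℝ) ≤
      ∑ I ∈ (univ : Finset (Finset (Fin r))).filter (fun I => I.Nonempty), ((Bad I).card : ℝ) := by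
    rw [← Nat.cast_sum]
    exact Nat.cast_le.2 ((card_le_card hsub).trans card_biUnion_le)
  refine hfin.trans ((sum_le_sum hcard).trans ?_)
  rw [sum_const, nsmul_eq_mul]
  have h7 : ((((univ : Finset (Finset (Fin r))).filter (fun I => I.Nonempty)).card : ℕ) : ℝ) ≤ 2 ^ r := by
    have : ((univ : Finset (Finset (Fin r))).filter (fun I => I.Nonempty)).card ≤ 2 ^ r := by
      refine (card_filter_le _ _).trans ?_
      rw [card_univ, Fintype.card_finset, Fintype.card_fin]
    exact_mod_cast this
  have h8 : 0 ≤ (∏ j, (X j : ℝ)) / (k : ℝ) ^ (U + 1) := div_nonneg (prod_nonneg fun _ _ => Nat.cast_nonneg _) (by positivity)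
  refine (mul_le_mul_of_nonneg_right (h7.trans hk2) h8).trans (le_of_eq ?_)
  rw [pow_succ]
  field_simp

end Pool.Agent.Results.MP_c59857_nt.RandomDigitArguments
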