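import Pool.Agent.TH823.Fam.Fam1
import Pool.Agent.H373R2.T7.SupLiou
import Pool.Agent.Q56.TF.Base

/-!
# Autocorrelations of the Möbius function: all the shifts in windows around almost all members of a real sequence

The last shift is any integer at a distance of at most `log ^ A N` from `r m`, for almost all `m ≤ x`, where
`r 1, ..., r x` is an arbitrary family of real numbers of nearly minimal energy; for instance the (real) values
`β + κ f m` of a polynomial `f` with integer coefficients, with arbitrary real `κ ≠ 0` and `β`, or of a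
generalised polynomial `f t = ∑ a_y t ^ y` whose largest exponent is greater than `1` and not an integer
(`f t = t ^ c`: the sequences of Piatetski-Shapiro).

From Mathlib: `ArithmeticFunction.moebius`: the Möbius function; `Polynomial ℤ`, `f.eval m`: polynomials and their
values. The bound for families of integers is from the starting files (`Pool.Agent.TH823.Fam.fam_all`).
-/

set_option autoImplicit false

namespace Pool.Agent.Results.MP_c59857_nt.WindowsAroundRealSequences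

open Finset

open Classical in
/-- The energy of order `p` of the family of real numbers `r 1, ..., r x`: the number of the pairs `v`, `w` of
`p`-tuples of elements of `{1, ..., x}` such that `r (v 1) + ... + r (v p)` and `r (w 1) + ... + r (w p)` differ
by at most `1`. -/
noncomputable def energy (p x : ℕ) (r : ℕ → ℝ) : ℕ :=
  (((Fintype.piFinset fun _ : Fin p => Icc 1 x) ×ˢ (Fintype.piFinset fun _ : Fin p => Icc 1 x)).filter
    (fun q => |∑ i, r (q.1 i) - ∑ i, r (q.2 i)| ≤ 1)).card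

/-- The Möbius function on the integers, `0` at the integers `m ≤ 0`. -/
noncomputable def mu (m : ℤ) : ℂ := if 1 ≤ m then ((ArithmeticFunction.moebius m.toNat : ℤ) : ℂ) else 0

/-- The shift `a` is good for the weights `g l` and the dilations `d l`: the sums of `g l n * μ (d l * n + a)` over
`n ≤ X` are at most `N / log ^ U N`, for all `l` and all `X` with `d l * X ≤ B N`. -/
def Good (B U N : ℕ) {L : ℕ} (d : Fin L → ℕ) (g : Fin L → ℕ → ℂ) (a : ℤ) : Prop :=
  ∀ l, ∀ X : ℕ, d l * X ≤ B * N → ‖∑ n ∈ Icc 1 X, g l n * mu (d l * n + a)‖ ≤ N / Real.log N ^ U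

/-- Chowla's correlations of order at most `R + 1` with one shift equal to `a` (with the exponent `1`) and all the
other shifts `b i` (with the exponents `e i` equal to `0`, `1` or `2`) arbitrary integers with
`|b i| ≤ log ^ A N` are at most `N / log ^ U N`. -/
def Chowla (A B R U N : ℕ) (a : ℤ) : Prop :=
  ∀ (b : Fin R → ℤ) (e : Fin R → ℕ), (∀ i, |(b i : ℝ)| ≤ Real.log N ^ A) → (∀ i, e i ≤ 2) → ∀ X ≤ B * N,
    ‖∑ n ∈ Icc 1 X, mu (n + a) * ∏ i, mu (n + b i) ^ e i‖ ≤ N / Real.log N ^ U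

open Classical in
/-- The number of the `m` in `{1, ..., x}` for which not all integers `a` at a distance of at most `w` from `r m`
have the property `G`. -/
noncomputable def exceptions (x : ℕ) (r : ℕ → ℝ) (w : ℝ) (G : ℤ → Prop) : ℕ :=
  ((Icc 1 x).filter (fun m => ∃ a : ℤ, |(a : ℝ) - r m| ≤ w ∧ ¬ G a)).card

/-- The bounds at scale `N` for the windows around the `r m`, `m ≤ x`. (1) For any `L ≤ log ^ T N` dilations `d l`
and weights `g l` bounded by `log ^ T N`: for all `m ≤ x` with at most `x / log ^ U N` exceptions all integers `a`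
with `|a - r m| ≤ log ^ A N` are good shifts. (2) For all `m ≤ x` with at most `x / log ^ U N` exceptions all
integers `a` with `|a - r m| ≤ log ^ A N` satisfy the bound for all of Chowla's correlations of order at most
`T + 1` whose other shifts are at most `log ^ A N`. -/
def Holds (A B T U N x : ℕ) (r : ℕ → ℝ) : Prop :=
  (∀ L : ℕ, (L : ℝ) ≤ Real.log N ^ T → ∀ (d : Fin L → ℕ) (g : Fin L → ℕ → ℂ), (∀ l, 1 ≤ d l) →
    (∀ l n, ‖g l n‖ ≤ Real.log N ^ T) →
    (exceptions x r (Real.log N ^ A) (Good B U N d g) : ℝ) ≤ x / Real.log N ^ U) ∧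
  (exceptions x r (Real.log N ^ A) (Chowla A B T U N) : ℝ) ≤ x / Real.log N ^ U

/-- The sequence `f`, of growth `x ^ c`, has the property at all large scales: for all `x` with
`N / log ^ C N ≤ x ^ c ≤ B N` and all translates `β + f m`, `|β| ≤ B N`. -/
def Sequence (A B C T U : ℕ) (f : ℕ → ℝ) (c : ℝ) : Prop :=
  ∃ N₀ : ℕ, ∀ N : ℕ, N₀ ≤ N → ∀ x : ℕ, (x : ℝ) ^ c ≤ B * N → (N : ℝ) ≤ Real.log N ^ C * (x : ℝ) ^ c →
    ∀ β : ℝ, |β| ≤ B * N → Holds A B T U N x (fun m => β + f m)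

open Pool.Agent.H373R2.T7 in
lemma mu_eq (m : ℤ) : mu m = exI muC m := rfl

lemma mu_norm (m : ℤ) : ‖mu m‖ ≤ 1 := by
  unfold mu
  split_ifs with h
  · exact Pool.Agent.H373R2.T7.muC_norm _
  · simp

open Pool.Agent.H373R2.T7 in
/-- integer families, arbitrary weights -/
lemma general (p B C T U : ℕ) : ∃ N₀ : ℕ, ∀ N : ℕ, N₀ ≤ N →
    ∀ (x : ℕ) (s : ℕ → ℤ), (∀ m ∈ Icc 1 x, |s m| ≤ B * N) →
    (Pool.Agent.H373R2.T7.energy p x s : ℝ) * N ≤ Real.log N ^ C * (x : ℝ) ^ (2 * p) →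
    ∀ L : ℕ, (L : ℝ) ≤ Real.log N ^ T → ∀ (d : Fin L → ℕ) (g : Fin L → ℕ → ℂ), (∀ l, 1 ≤ d l) →
    (∀ l n, ‖g l n‖ ≤ Real.log N ^ T) →
    ∀ S : Finset ℕ, S ⊆ Icc 1 x → (∀ m ∈ S, ¬ Good B U N d g (s m)) →
      (S.card : ℝ) ≤ x / Real.log N ^ U := by
  classical
  obtain ⟨N₀, h0⟩ := Pool.Agent.TH823.Fam.fam_all muC muC_norm sup_muC p B C T U
  refine ⟨N₀ + 3, fun N hN x s hs hE L hL d g hd hg S hS hSb => ?_⟩
  have h1 := h0 N (by omega) x s hs hE L hL (fun l => if h : l < L then d ⟨l, h⟩ else 1)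
    (fun l => if h : l < L then g ⟨l, h⟩ else fun _ => 0) (by
      intro l hl
      simp only [hl, dif_pos]
      exact hd _) (by
      intro l hl n _ _
      simp only [hl, dif_pos]
      exact hg _ n) (fun m => m ∈ S) (by
      intro m hm hmS
      have h2 := hSb m hmS
      unfold Good at h2
      push Not at h2
      obtain ⟨l, X, hX, h3⟩ := h2
      refine ⟨l, l.2, X, ?_, ?_⟩
      · simp only [l.2, dif_pos]
        exact hX
      · simp only [l.2, dif_pos]
        refine lt_of_lt_of_eq h3 ?_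
        congr 1)
  have h4 : (Icc 1 x).filter (fun m => m ∈ S) = S := by
    ext m
    rw [mem_filter]
    exact ⟨fun h => h.2, fun h => ⟨hS h, h⟩⟩
  rw [h4] at h1
  exact h1

lemma good_all_of {A B T U N x p C' B' : ℕ} (hBB : B ≤ B') (r : ℕ → ℝ)
    (hgen : ∀ s : ℕ → ℤ, (∀ m ∈ Icc 1 x, |s m| ≤ B' * N) →
      (Pool.Agent.H373R2.T7.energy p x s : ℝ) * N ≤ Real.log N ^ C' * (x : ℝ) ^ (2 * p) →
      ∀ L : ℕ, (L : ℝ) ≤ Real.log N ^ T → ∀ (d : Fin L → ℕ) (g : Fin L → ℕ → ℂ), (∀ l, 1 ≤ d l) →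
      (∀ l n, ‖g l n‖ ≤ Real.log N ^ T) →
      ∀ S : Finset ℕ, S ⊆ Icc 1 x → (∀ m ∈ S, ¬ Good B' U N d g (s m)) →
        (S.card : ℝ) ≤ x / Real.log N ^ U)
    (hm : ∀ P : ℤ → Prop, ∃ s : ℕ → ℤ, (∀ m ∈ Icc 1 x, |s m| ≤ B' * N) ∧
      (Pool.Agent.H373R2.T7.energy p x s : ℝ) * N ≤ Real.log N ^ C' * (x : ℝ) ^ (2 * p) ∧
      ∀ m, (∃ a : ℤ, |(a : ℝ) - r m| ≤ Real.log N ^ A ∧ P a) → P (s m))
    (L : ℕ) (hL : (L : ℝ) ≤ Real.log N ^ T) (d : Fin L → ℕ) (g : Fin L → ℕ → ℂ) (hd : ∀ l, 1 ≤ d l)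
    (hg : ∀ l n, ‖g l n‖ ≤ Real.log N ^ T) (G : ℤ → Prop) (hG : ∀ a, Good B U N d g a → G a) :
    (exceptions x r (Real.log N ^ A) G : ℝ) ≤ x / Real.log N ^ U := by
  classical
  obtain ⟨s, h1, h2, h3⟩ := hm (fun a => ¬ Good B U N d g a)
  unfold exceptions
  apply hgen s h1 h2 L hL d g hd hg _ (filter_subset _ _)
  intro m hm
  obtain ⟨hm1, a, ha1, ha2⟩ := mem_filter.1 hm
  have h5 := h3 m ⟨a, ha1, fun h => ha2 (hG a h)⟩
  exact fun h6 => h5 fun l X hX => h6 l X (hX.trans (Nat.mul_le_mul_right _ hBB))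

/-- Chowla's correlations as a system of weights -/
lemma chowla_system (A R : ℕ) : ∃ N₀ : ℕ, ∀ N : ℕ, N₀ ≤ N → ∀ B U : ℕ,
    ∃ L : ℕ, (L : ℝ) ≤ Real.log N ^ ((A + 3) * R + 1) ∧ ∃ g : Fin L → ℕ → ℂ,
      (∀ l n, ‖g l n‖ ≤ 1) ∧ ∀ a : ℤ, Good B U N (fun _ => 1) g a → Chowla A B R U N a := by
  classical
  refine ⟨⌈Real.exp 9⌉₊, fun N hN B U => ?_⟩
  have hlog9 : 9 ≤ Real.log N := by
    rw [Real.le_log_iff_exp_le (by exact_mod_cast lt_of_lt_of_le (Nat.ceil_pos.2 (Real.exp_pos _)) hN)]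
    exact (Nat.le_ceil _).trans (by exact_mod_cast hN)
  have hlog1 : 1 ≤ Real.log N := by linarith
  obtain ⟨M, hM⟩ : ∃ M : ℤ, M = ⌊Real.log N ^ A⌋ := ⟨_, rfl⟩
  have hM0 : 0 ≤ M := by rw [hM]; positivity
  have hM1 : (M : ℝ) ≤ Real.log N ^ A := by rw [hM]; exact Int.floor_le _
  obtain ⟨Z, hZ⟩ : ∃ Z : Finset ((Fin R → ℤ) × (Fin R → ℕ)), Z =
    (Fintype.piFinset fun _ : Fin R => Icc (-M) M) ×ˢ (Fintype.piFinset fun _ : Fin R => range 3) := ⟨_, rfl⟩
  refine ⟨Z.card, ?_, fun l n => ∏ i, mu (n + (Z.equivFin.symm l).1.1 i) ^ (Z.equivFin.symm l).1.2 i, ?_, ?_⟩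
  · rw [hZ, card_product, Fintype.card_piFinset, Fintype.card_piFinset]
    simp only [Int.card_Icc, card_range, prod_const, card_univ, Fintype.card_fin]
    have h1 : (((M + 1 - -M).toNat : ℕ) : ℝ) ≤ 3 * Real.log N ^ A := by
      have h2 : (((M + 1 - -M).toNat : ℕ) : ℤ) = 2 * M + 1 := by
        rw [Int.toNat_of_nonneg (by omega)]
        ring
      have h3 : (((M + 1 - -M).toNat : ℕ) : ℝ) = 2 * M + 1 := by exact_mod_cast h2
      rw [h3]
      have := one_le_pow₀ hlog1 (n := A)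
      linarith
    push_cast
    calc (((M + 1 - -M).toNat : ℕ) : ℝ) ^ R * 3 ^ R ≤ (3 * Real.log N ^ A) ^ R * 3 ^ R := by
          apply mul_le_mul_of_nonneg_right _ (by positivity)
          exact pow_le_pow_left₀ (Nat.cast_nonneg _) h1 R
      _ = (9 * Real.log N ^ A) ^ R := by rw [← mul_pow]; ring
      _ ≤ (Real.log N ^ (A + 1)) ^ R := by
          apply pow_le_pow_left₀ (by positivity)
          rw [pow_succ, mul_comm]
          exact mul_le_mul_of_nonneg_left hlog9 (by positivity)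
      _ = Real.log N ^ ((A + 1) * R) := by rw [pow_mul]
      _ ≤ Real.log N ^ ((A + 3) * R + 1) := by
          apply pow_le_pow_right₀ hlog1
          nlinarith
  · intro l n
    rw [norm_prod]
    apply prod_le_one (fun i _ => norm_nonneg _)
    intro i _
    rw [norm_pow]
    exact pow_le_one₀ (norm_nonneg _) (mu_norm _)
  · intro a ha b e hb he X hX
    have hz : (b, e) ∈ Z := by
      rw [hZ, mem_product, Fintype.mem_piFinset, Fintype.mem_piFinset]
      constructor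
      · intro i
        rw [mem_Icc, ← abs_le, hM, Int.le_floor]
        push_cast
        exact hb i
      · intro i
        rw [mem_range]
        have := he i
        simp only
        omega
    have h1 := ha (Z.equivFin ⟨(b, e), hz⟩) X (by simpa using hX)
    simp only [Equiv.symm_apply_apply] at h1
    refine le_trans (le_of_eq ?_) h1
    congr 1
    apply sum_congr rfl
    intro n _
    rw [mul_comm]
    push_cast
    rw [one_mul]

/-- the transfer from the windows to families of integers -/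
lemma holds_of (A B B' T U p C' : ℕ) (hBB : B ≤ B') : ∃ N₀ : ℕ, ∀ N : ℕ, N₀ ≤ N → ∀ (x : ℕ) (r : ℕ → ℝ),
    (∀ P : ℤ → Prop, ∃ s : ℕ → ℤ, (∀ m ∈ Icc 1 x, |s m| ≤ B' * N) ∧
      (Pool.Agent.H373R2.T7.energy p x s : ℝ) * N ≤ Real.log N ^ C' * (x : ℝ) ^ (2 * p) ∧
      ∀ m, (∃ a : ℤ, |(a : ℝ) - r m| ≤ Real.log N ^ A ∧ P a) → P (s m)) → Holds A B T U N x r := by
  obtain ⟨N₁, h1⟩ := general p B' C' T U
  obtain ⟨N₂, h2⟩ := general p B' C' ((A + 3) * T + 1) U
  obtain ⟨N₃, h3⟩ := chowla_system A T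
  refine ⟨N₁ + N₂ + N₃ + 3, fun N hN x r hm => ⟨fun L hL d g hd hg => ?_, ?_⟩⟩
  · exact good_all_of hBB r (fun s hs hE => h1 N (by omega) x s hs hE) hm L hL d g hd hg _ (fun a h => h)
  · obtain ⟨L, hL, g, hg, hG⟩ := h3 N (by omega) B U
    have hlog1 : 1 ≤ Real.log N := by
      rw [Real.le_log_iff_exp_le (by exact_mod_cast (by omega : 0 < N))]
      have : (3 : ℝ) ≤ N := by exact_mod_cast (by omega : 3 ≤ N)
      linarith [Real.exp_one_lt_d9]
    exact good_all_of hBB r (fun s hs hE => h2 N (by omega) x s hs hE) hm L hL (fun _ => 1) g (fun _ => le_rfl)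
      (fun l n => (hg l n).trans (one_le_pow₀ hlog1)) _ hG

lemma sequence_of {f : ℕ → ℝ} {c : ℝ} (h : Pool.Agent.Q56.TF.Base f c) (hc : 1 ≤ c) (A B C T U : ℕ) :
    Sequence A B C T U f c := by
  obtain ⟨p, B', C', N₀, h1⟩ := Pool.Agent.Q56.TF.master h hc A B C
  obtain ⟨N₁, h2⟩ := holds_of A B (B + B') T U p C' (by omega)
  refine ⟨N₀ + N₁, fun N hN x hx1 hx2 β hβ => ?_⟩
  refine h2 N (by omega) x _ ?_
  intro P
  obtain ⟨s, h3, h4, h5⟩ := h1 N (by omega) x hx1 hx2 β hβ P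
  refine ⟨s, fun m hm => (h3 m hm).trans ?_, h4, h5⟩
  have : (0 : ℤ) ≤ B * N := by positivity
  push_cast
  linarith

/-- Let `A`, `B`, `C`, `T`, `U` be fixed.

* For every `p` the following holds for all large `N`. Let `r 1, ..., r x` be an arbitrary family of real numbers in
  `[-B N, B N]` with an energy of order `p` of at most `log ^ C N` times `x ^ (2 p) / N` (the minimal possible order
  of magnitude). Then (`Holds`): (1) for any `L ≤ log ^ T N` dilations `d l ≥ 1` and weights `g l`,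
  `|g l n| ≤ log ^ T N`, for all `m ≤ x` with at most `x / log ^ U N` exceptions ALL integers `a` with
  `|a - r m| ≤ log ^ A N` satisfy `|∑ n ≤ X, g l n * μ (d l * n + a)| ≤ N / log ^ U N` for all `l` and all `X` with
  `d l * X ≤ B N`; (2) for all `m ≤ x` with at most `x / log ^ U N` exceptions
  `|∑ n ≤ X, μ (n + a) μ (n + b 1) ^ (e 1) ⋯ μ (n + b T) ^ (e T)| ≤ N / log ^ U N` holds for ALL integers `a` with
  `|a - r m| ≤ log ^ A N`, ALL integers `b i` with `|b i| ≤ log ^ A N`, all exponents `e i` in `{0, 1, 2}` and all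
  `X ≤ B N`.
* This holds for `r m = β + κ f m`, `m ≤ x`, where `f` is a fixed nonconstant polynomial with integer
  coefficients, of degree `d`, `κ ≠ 0` is a fixed real number, `β` is any real number with `|β| ≤ B N`, and
  `N / log ^ C N ≤ x ^ d ≤ B N`.
* This holds for `r m = β + ∑ a_y m ^ y` (a sum over a finite set `F` of real exponents `y`), if the largest
  exponent `c` is greater than `1` and not an integer, `a_c ≠ 0`, `|β| ≤ B N` and `N / log ^ C N ≤ x ^ c ≤ B N`; for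
  instance for `r m = β + m ^ c`. -/
theorem result (A B C T U : ℕ) :
    (∀ p : ℕ, ∃ N₀ : ℕ, ∀ N : ℕ, N₀ ≤ N → ∀ (x : ℕ) (r : ℕ → ℝ), (∀ m ∈ Icc 1 x, |r m| ≤ B * N) →
      (energy p x r : ℝ) * N ≤ Real.log N ^ C * (x : ℝ) ^ (2 * p) → Holds A B T U N x r) ∧
    (∀ f : Polynomial ℤ, 1 ≤ f.natDegree → ∀ κ : ℝ, κ ≠ 0 →
      Sequence A B C T U (fun m => κ * ((f.eval (m : ℤ) : ℤ) : ℝ)) f.natDegree) ∧
    (∀ (F : Finset ℝ) (a : ℝ → ℝ) (c : ℝ), c ∈ F → (∀ y ∈ F, y ≤ c) → a c ≠ 0 → 1 < c → (∀ k : ℕ, c ≠ k) →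
      Sequence A B C T U (fun m => ∑ y ∈ F, a y * (m : ℝ) ^ y) c) := by
  classical
  refine ⟨fun p => ?_, fun f hd κ hκ => ?_, fun F a c hcF hmax hac hc hcn => ?_⟩
  · obtain ⟨B', C', N₀, h1⟩ := Pool.Agent.Q56.TF.master_gen p A B C
    obtain ⟨N₁, h2⟩ := holds_of A B (B + B') T U p C' (by omega)
    refine ⟨N₀ + N₁, fun N hN x r hr hE => ?_⟩
    refine h2 N (by omega) x _ ?_
    intro P
    obtain ⟨s, h3, h4, h5⟩ := h1 N (by omega) x r hr hE P
    refine ⟨s, fun m hm => (h3 m hm).trans ?_, h4, h5⟩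
    have : (0 : ℤ) ≤ B * N := by positivity
    push_cast
    linarith
  · exact sequence_of ((Pool.Agent.Q56.TF.base_poly f hd).dil hκ) (by exact_mod_cast hd) A B C T U
  · exact sequence_of (Pool.Agent.Q56.TF.base_gp F a c hcF hmax hac hc hcn) hc.le A B C T U

end Pool.Agent.Results.MP_c59857_nt.WindowsAroundRealSequences
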